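import Mathlib
import Pool.Agent.P.MP_ef1120_an.Exist

set_option autoImplicit false

namespace Pool.Agent.Results.MP_ef1120_an.SeparableLtTwo

universe u

/-- Every separable real normed space has a 2-separated set that is `r`-dense for some `r < 2`, so its
simultaneous packing and covering constant is less than 2. -/
theorem result (X : Type u) [NormedAddCommGroup X] [NormedSpace ℝ X]
    [TopologicalSpace.SeparableSpace X] :
    ∃ r : ℝ, 0 < r ∧ r < 2 ∧ ∃ P : Set X,
      (∀ p ∈ P, ∀ q ∈ P, p ≠ q → 2 ≤ ‖p - q‖) ∧ ∀ x : X, ∃ p ∈ P, ‖x - p‖ ≤ r :=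
  Pool.Agent.P.MP_ef1120_an.goal X

end Pool.Agent.Results.MP_ef1120_an.SeparableLtTwo
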